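import Mathlib
import Pool.Agent.Helper403.Final

set_option autoImplicit false

namespace Pool.Agent.Results.MP_559555_nt.LinearlyManyValues

open Pool.Agent.Helper403 in
/-- There is a constant `c > 0` such that, for all large `x`, the function
`n ↦ ∑_{p ∣ n} n / p ^ (v_p n)` takes at least `c * x` distinct values on `1 ≤ n ≤ x`. -/
theorem result :
    ∃ c : ℝ, 0 < c ∧ ∃ x0 : ℕ, ∀ x : ℕ, x0 ≤ x →
      c * (x : ℝ) ≤
        (((Finset.Icc 1 x).image
            (fun n : ℕ => ∑ p ∈ n.primeFactors, n / p ^ (n.factorization p))).card : ℝ) := by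
  obtain ⟨c, hc, N0, hN0⟩ := main_bound
  refine ⟨c / 4 ^ 130, by positivity, 4 ^ (130 * N0), ?_⟩
  intro x hx
  have hx0 : x ≠ 0 := by
    have : 0 < 4 ^ (130 * N0) := by positivity
    omega
  -- choose `N` with `XX N ≤ x < XX (N+1)`
  set N := Nat.log (4 ^ 130) x with hN
  have h1 : (4 ^ 130) ^ N ≤ x := Nat.pow_log_le_self _ hx0
  have h2 : x < (4 ^ 130) ^ (N + 1) := Nat.lt_pow_succ_log_self (by norm_num) x
  have hNN : N0 ≤ N := by
    rw [hN]
    apply Nat.le_log_of_pow_le (by norm_num)
    rw [← pow_mul]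
    exact hx
  have h3 := hN0 N hNN
  have hXle : XX N ≤ x := by
    unfold XX
    rw [pow_mul]
    exact h1
  have h4 : (((Finset.Icc 1 (XX N)).image W).card : ℝ) ≤
      (((Finset.Icc 1 x).image
            (fun n : ℕ => ∑ p ∈ n.primeFactors, n / p ^ (n.factorization p))).card : ℝ) := by
    have : ((Finset.Icc 1 (XX N)).image W) ⊆ ((Finset.Icc 1 x).image
            (fun n : ℕ => ∑ p ∈ n.primeFactors, n / p ^ (n.factorization p))) := by
      apply Finset.image_subset_image
      exact Finset.Icc_subset_Icc le_rfl hXle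
    exact_mod_cast Finset.card_le_card this
  have h5 : (x : ℝ) ≤ 4 ^ 130 * (XX N : ℝ) := by
    have : x ≤ 4 ^ 130 * XX N := by
      unfold XX
      rw [pow_mul]
      rw [pow_succ] at h2
      rw [mul_comm]
      exact h2.le
    exact_mod_cast this
  calc c / 4 ^ 130 * (x : ℝ) ≤ c / 4 ^ 130 * (4 ^ 130 * (XX N : ℝ)) := by
        apply mul_le_mul_of_nonneg_left h5 (by positivity)
    _ = c * (XX N : ℝ) := by
        field_simp
    _ ≤ _ := h3.trans h4

end Pool.Agent.Results.MP_559555_nt.LinearlyManyValues
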